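import Mathlib
import Pool.Agent.H10.PTree

set_option autoImplicit false

namespace Pool.Agent.Results.MP_90e7d5_co.Unbounded

open Finset

def StarPCG {V : Type} (G : SimpleGraph V) (k : ℕ) : Prop :=
  ∃ (w : V → ℝ) (a b : Fin k → ℝ), (∀ v, 0 < w v) ∧ (∀ i, a i ≤ b i) ∧
    (∀ i j, i ≠ j → Disjoint (Set.Icc (a i) (b i)) (Set.Icc (a j) (b j))) ∧
    ∀ u v, u ≠ v → (G.Adj u v ↔ ∃ i, w u + w v ∈ Set.Icc (a i) (b i))

def T (m N : ℕ) : SimpleGraph (Fin N) where
  Adj u v := (∃ t < m, u.1 = m * v.1 + t + 1) ∨ ∃ t < m, v.1 = m * u.1 + t + 1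
  symm := ⟨fun _ _ h => h.symm⟩
  loopless := ⟨fun u h => by
    rcases h with ⟨t, h1, h2⟩ | ⟨t, h1, h2⟩ <;> nlinarith⟩

lemma uniq {m a b s t : ℕ} (hs : s < m) (ht : t < m) (h : m * a + s = m * b + t) : a = b := by
  have h1 := congrArg (· / m) h
  simp only [Nat.mul_add_div (by omega : m > 0), Nat.div_eq_of_lt hs, Nat.div_eq_of_lt ht] at h1
  omega

theorem result (c : ℕ) : ∃ (V : Type) (_ : Fintype V) (G : SimpleGraph V), G.IsAcyclic ∧
    ∀ k ≤ c, ¬ StarPCG G k := by
  classical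
  obtain ⟨m, hm⟩ : ∃ m, m = c * c * 2 + 1 := ⟨_, rfl⟩
  obtain ⟨N, hN⟩ : ∃ N, N = (m + 1) ^ (c + 1) := ⟨_, rfl⟩
  refine ⟨Fin N, inferInstance, T m N, Pool.Agent.H10.PTree.acyclic _ (fun v => v.1) ?_, ?_⟩
  · rintro v a b (⟨s, s1, s2⟩ | ⟨s, s1, s2⟩) (⟨t, t1, t2⟩ | ⟨t, t1, t2⟩) ha hb
    · exact Fin.ext (uniq s1 t1 (by omega))
    all_goals exfalso; nlinarith
  rintro k hk ⟨w, a, b, -, -, -, h⟩
  let rk : Fin k → ℕ := fun j => (univ.filter fun i => b i - a i < b j - a j).card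
  have key : ∀ (n : ℕ) (i : Fin N), (i.1 + 1) * (m + 1) ^ (n + 1) ≤ N → ∃ (z : Fin N) (j : Fin k),
      (∃ t < m, z.1 = m * i.1 + t + 1) ∧ w i + w z ∈ Set.Icc (a j) (b j) ∧ n ≤ rk j := by
    intro n
    induction n with
    | zero =>
      intro i hi
      have h1 : m * i.1 + 0 + 1 < N := by
        have : 0 < m := by omega
        rw [zero_add, pow_one] at hi; nlinarith
      have h2 : (T m N).Adj i ⟨_, h1⟩ := Or.inr ⟨0, by omega, rfl⟩
      obtain ⟨j, hj⟩ := (h _ _ h2.ne).mp h2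
      exact ⟨_, j, ⟨0, by omega, rfl⟩, hj, Nat.zero_le _⟩
    | succ n ih =>
      intro i hi
      have h0 : ∀ t : Fin m, (m * i.1 + t + 1 + 1) * (m + 1) ^ (n + 1) ≤ N := fun t => by
        refine le_trans ?_ hi
        rw [pow_succ' _ (n + 1), ← mul_assoc]
        exact Nat.mul_le_mul_right _ (by have := t.2; nlinarith)
      have h1 : ∀ t : Fin m, m * i.1 + t + 1 < N := fun t =>
        lt_of_lt_of_le (lt_of_lt_of_le (Nat.lt_succ_self _)
          (Nat.le_mul_of_pos_right _ (by positivity))) (h0 t)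
      let ch : Fin m → Fin N := fun t => ⟨_, h1 t⟩
      have h2 : ∀ t, (T m N).Adj i (ch t) := fun t => Or.inr ⟨t, t.2, rfl⟩
      choose e he using fun t => (h _ _ (h2 t).ne).mp (h2 t)
      choose z j hz1 hz2 hz3 using fun t => ih (ch t) (h0 t)
      obtain ⟨⟨p, q⟩, hpq⟩ := Fintype.exists_lt_card_fiber_of_mul_lt_card (n := 2)
        (fun t => (e t, j t)) (by simp; nlinarith)
      set s := univ.filter fun t => (e t, j t) = (p, q)
      have hs : ∀ t ∈ s, e t = p ∧ j t = q := fun t ht => Prod.mk.inj (mem_filter.mp ht).2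
      obtain ⟨x, hx, hx'⟩ := exists_min_image s (fun t => w (ch t)) (card_pos.mp (by omega))
      have c1 := card_erase_of_mem hx
      obtain ⟨y, hy, hy'⟩ := exists_max_image (s.erase x) (fun t => w (ch t))
        (card_pos.mp (by omega))
      have c2 := card_erase_of_mem hy
      obtain ⟨u, hu⟩ : ((s.erase x).erase y).Nonempty := card_pos.mp (by omega)
      simp only [mem_erase] at hu hy
      have hna : ∀ v, u ≠ v → w (ch v) + w (z u) ∉ Set.Icc (a q) (b q) := by
        intro v hv hc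
        obtain ⟨t, t1, t2⟩ := hz1 u
        have hv2 := v.2
        have hlt : (ch v).1 < (z u).1 := by
          simp only [t2, ch]
          have := Nat.mul_le_mul_left m (show i.1 + 1 ≤ m * i.1 + u + 1 by nlinarith)
          nlinarith
        rcases (h _ _ (Fin.ne_of_val_ne hlt.ne)).mpr ⟨q, hc⟩ with ⟨r, r1, r2⟩ | ⟨r, r1, r2⟩
        · nlinarith
        · have := uniq t1 r1 (by omega : m * (ch u).1 + t = m * (ch v).1 + r)
          exact hv (Fin.ext (by simpa [ch] using this))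
      have a1 := hna x hu.2.1
      have a2 := hna y hu.1
      have a3 := hz2 u
      have a4 := he x
      have a5 := he y
      have a6 := hx' u hu.2.2
      have a7 := hy' u (mem_erase.mpr hu.2)
      have a8 := hz3 u
      rw [(hs u hu.2.2).2] at a3 a8
      rw [(hs x hx).1] at a4
      rw [(hs y hy.2).1] at a5
      simp only [Set.mem_Icc, not_and_or, not_le] at a1 a2 a3 a4 a5
      have a9 : b q - a q < b p - a p := by
        rcases a1 with a1 | a1 <;> rcases a2 with a2 | a2 <;> linarith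
      refine ⟨ch x, p, ⟨x, x.2, rfl⟩, a4, lt_of_le_of_lt a8 (card_lt_card ⟨fun r hr => ?_, fun hh => ?_⟩)⟩
      · simp only [mem_filter, mem_univ, true_and] at hr ⊢; linarith
      · simpa using hh (mem_filter.mpr ⟨mem_univ q, a9⟩)
  obtain ⟨-, j, -, -, h3⟩ := key c ⟨0, by rw [hN]; positivity⟩ (by simp [hN])
  have : rk j < Fintype.card (Fin k) := card_lt_univ_of_notMem (x := j) (by simp)
  simp at this
  omega

end Pool.Agent.Results.MP_90e7d5_co.Unbounded
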